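import Pool.Agent.Helper85.Crouzeix.Main

/-!
# MP_a3eb37_an (Crouzeix's numerical range constant), Q1: polynomials of degree at most two

For every bounded operator `A` on a complex inner product space and every polynomial `p` of
degree at most two, `‖p(A)‖ ≤ 2 sup {|p(μ)| : μ ∈ W(A)}`, where
`W(A) = {⟪A x, x⟫ : ‖x‖ = 1}` (in Mathlib's convention `⟪A x, x⟫` is `inner ℂ x (A x)`).
-/

namespace Pool.Agent.Helper51.Moved.Quadratic

theorem result {E : Type*} [NormedAddCommGroup E] [InnerProductSpace ℂ E]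
    (A : E →L[ℂ] E) (p : Polynomial ℂ) (hp : p.natDegree ≤ 2) :
    BddAbove {r : ℝ | ∃ x : E, ‖x‖ = 1 ∧ r = ‖p.eval (inner ℂ x (A x))‖} ∧
    ‖Polynomial.aeval A p‖
      ≤ 2 * sSup {r : ℝ | ∃ x : E, ‖x‖ = 1 ∧ r = ‖p.eval (inner ℂ x (A x))‖} :=
  Pool.Agent.Helper85.Crouzeix.main A p hp

end Pool.Agent.Helper51.Moved.Quadratic
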